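import Pool.Agent.Helper58.DS.Tree

set_option autoImplicit false

/-!
MP_98699e_co: for every prime m, every double star T with m edges (a tree with an edge xy such that
every other vertex is adjacent to x or to y), every nonempty finite graph G of minimum degree at
least 2m-1 and every colouring of the edges of G by the integers modulo m there is a copy of T in G
whose colours sum to 0.
-/

theorem Pool.Agent.Results.MP_98699e_co.DiameterThree.result :
    ∀ (m : ℕ), m.Prime →
    ∀ (T : SimpleGraph (Fin (m + 1))) [DecidableRel T.Adj], T.IsTree →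
      (∃ x y : Fin (m + 1), T.Adj x y ∧ ∀ z, z ≠ x → z ≠ y → T.Adj x z ∨ T.Adj y z) →
    ∀ (V : Type) [Fintype V] [Nonempty V] (G : SimpleGraph V) [DecidableRel G.Adj],
      (∀ v : V, 2 * m - 1 ≤ G.degree v) →
      ∀ c : Sym2 V → ZMod m,
        ∃ f : Fin (m + 1) → V, Function.Injective f ∧
          (∀ a b : Fin (m + 1), T.Adj a b → G.Adj (f a) (f b)) ∧
          ∑ e ∈ T.edgeFinset, c (Sym2.map f e) = 0 := by
  classical
  intro m hm T _ hT hxy V _ _ G _ hG c
  obtain ⟨x, y, hadj, hdom⟩ := hxy
  exact Pool.Agent.Helper58.DS.tree hm T hT x y hadj hdom G hG c
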