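import Pool.Agent.Helper58.AM.All

set_option autoImplicit false

/-!
MP_98699e_co: for every m and every abelian group M with m elements, every double star T with m
edges (a tree with an edge xy such that every other vertex is adjacent to x or to y), every nonempty
finite graph G of minimum degree at least 14 m and every colouring of the edges of G by the elements
of M there is a copy of T in G whose colours sum to 0.
-/

theorem Pool.Agent.Results.MP_98699e_co.DiameterThreeAllModuli.result :
    ∀ (m : ℕ) (M : Type) [AddCommGroup M] [Fintype M], Fintype.card M = m →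
    ∀ (T : SimpleGraph (Fin (m + 1))) [DecidableRel T.Adj], T.IsTree →
      (∃ x y : Fin (m + 1), T.Adj x y ∧ ∀ z, z ≠ x → z ≠ y → T.Adj x z ∨ T.Adj y z) →
    ∀ (V : Type) [Fintype V] [Nonempty V] (G : SimpleGraph V) [DecidableRel G.Adj],
      (∀ v : V, 14 * m ≤ G.degree v) →
      ∀ c : Sym2 V → M,
        ∃ f : Fin (m + 1) → V, Function.Injective f ∧
          (∀ a b : Fin (m + 1), T.Adj a b → G.Adj (f a) (f b)) ∧
          ∑ e ∈ T.edgeFinset, c (Sym2.map f e) = 0 :=
  Pool.Agent.Helper58.AM.all_TRE
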