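import Pool.Agent.Helper7.ZS.ATT
import Pool.Agent.Helper7.ZS.IND
import Pool.Agent.Helper32.ZS.BR
import Pool.Agent.Helper32.ZS.CENT
import Pool.Agent.Helper32.ZS.COND
import Pool.Agent.Helper32.ZS.CODE
import Pool.Agent.Helper32.ZS.MONO
import Pool.Agent.Helper43.ZS.E2M
import Pool.Agent.Helper43.ZS.INF
import Pool.Agent.Helper57.ZS.BRL
import Pool.Agent.Helper57.ZS.EM
import Pool.Agent.Helper84.ZS.REAL
import Pool.Agent.Helper94.ZS.MG
import Pool.Agent.Helper99.ZS.BR2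
import Pool.Agent.Helper99.ZS.CNT
import Pool.Agent.Helper99.ZS.EMON
import Pool.Agent.Helper99.ZS.FALL
import Pool.Agent.Helper99.ZS.FIN
import Pool.Agent.Helper99.ZS.HAR
import Pool.Agent.Helper99.ZS.HOST
import Pool.Agent.Helper99.ZS.PROD
import Pool.Agent.Helper99.ZS.RER
import Pool.Agent.Helper99.ZS.RES

set_option autoImplicit false

/-!
MP_98699e_co: for every prime m, every tree T with m edges, every nonempty finite graph G of
minimum degree at least 65536 m and every colouring of the edges of G by the integers modulo m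
there is a copy of T in G whose colours sum to 0.
-/

theorem Pool.Agent.Results.MP_98699e_co.LinearPrime.result :
    ∀ (m : ℕ), m.Prime →
    ∀ (T : SimpleGraph (Fin (m + 1))) [DecidableRel T.Adj], T.IsTree →
    ∀ (V : Type) [Fintype V] [Nonempty V] (G : SimpleGraph V) [DecidableRel G.Adj],
      (∀ v : V, 65536 * m ≤ G.degree v) →
      ∀ c : Sym2 V → ZMod m,
        ∃ f : Fin (m + 1) → V, Function.Injective f ∧
          (∀ a b : Fin (m + 1), T.Adj a b → G.Adj (f a) (f b)) ∧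
          ∑ e ∈ T.edgeFinset, c (Sym2.map f e) = 0 :=
  ZS.st_RES ZS.st_HOST ZS.st_MONO ZS.st_CODE ZS.st_REAL (ZS.st_CENT ZS.st_CNT ZS.st_RER)
    (ZS.st_IND (ZS.st_BR ZS.st_INF) (ZS.st_BRL ZS.st_INF) (ZS.st_BR2 ZS.st_INF)
      (ZS.st_MG ZS.st_E2M (ZS.st_FALL (ZS.st_EMON ZS.st_E2M) ZS.st_COND ZS.st_E2M)
        (ZS.st_ATT ZS.st_INF)) (ZS.st_EM ZS.st_PROD ZS.st_HAR) (ZS.st_EMON ZS.st_E2M))
    (ZS.st_FIN ZS.st_E2M)
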