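import Pool.Agent.Helper4.NS.Tree

set_option autoImplicit false

/-!
MP_98699e_co: for every prime m, every tree T with m edges having a vertex adjacent to at least
4m/5 leaves, every nonempty finite graph G of minimum degree at least 2m-1 and every colouring of
the edges of G by the integers modulo m there is a copy of T in G whose colours sum to 0.
-/

open Finset in
theorem Pool.Agent.Results.MP_98699e_co.NearStar.result :
    ∀ (m : ℕ), m.Prime →
    ∀ (T : SimpleGraph (Fin (m + 1))) [DecidableRel T.Adj], T.IsTree →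
      (∃ x : Fin (m + 1), 4 * m ≤ 5 * #{y | T.Adj x y ∧ T.degree y = 1}) →
    ∀ (V : Type) [Fintype V] [Nonempty V] (G : SimpleGraph V) [DecidableRel G.Adj],
      (∀ v : V, 2 * m - 1 ≤ G.degree v) →
      ∀ c : Sym2 V → ZMod m,
        ∃ f : Fin (m + 1) → V, Function.Injective f ∧
          (∀ a b : Fin (m + 1), T.Adj a b → G.Adj (f a) (f b)) ∧
          ∑ e ∈ T.edgeFinset, c (Sym2.map f e) = 0 := by
  classical
  intro m hm T _ hT hx V _ _ G _ hG c
  have : Fact m.Prime := ⟨hm⟩
  have hm2 := hm.two_le
  obtain ⟨x, hx⟩ := hx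
  set L : Finset (Fin (m + 1)) := {y | T.Adj x y ∧ T.degree y = 1} with hLdef
  have hL : ∀ y ∈ L, T.Adj x y ∧ ∀ z, T.Adj y z → z = x := by
    intro y hy
    rw [hLdef, mem_filter] at hy
    refine ⟨hy.2.1, fun z hz => ?_⟩
    obtain ⟨w, _, hw⟩ := SimpleGraph.degree_eq_one_iff_existsUnique_adj.1 hy.2.2
    rw [hw z hz, hw x hy.2.1.symm]
  have hinn := Pool.Agent.Helper4.NS.inn_card T hT x L hL
  rw [Fintype.card_fin] at hinn
  by_cases hstar : #L = m
  · -- the star
    obtain ⟨v⟩ := (inferInstance : Nonempty V)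
    obtain ⟨B, hB, hBc, hBs⟩ := ZMod.erdos_ginzburg_ziv (n := m) (s := G.neighborFinset v)
      (fun w => c s(v, w)) (by
        rw [SimpleGraph.card_neighborFinset_eq_degree]
        exact hG v)
    have hI : ∀ a ∈ univ \ L, a = x := by
      have h1 : #(univ \ L) ≤ 1 := by
        have h2 := card_sdiff_add_card_eq_card (subset_univ L)
        rw [card_univ, Fintype.card_fin] at h2
        omega
      have hxL : x ∉ L := fun h => T.loopless.irrefl x (hL x h).1
      intro a ha
      exact card_le_one.1 h1 a ha x (mem_sdiff.2 ⟨mem_univ x, hxL⟩)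
    refine Pool.Agent.Helper4.NS.leaf T x L hL G c (fun _ => v) ?_ ?_ B ?_ ?_ ?_ ?_
    · intro a ha b hb _
      rw [hI a (mem_coe.1 ha), hI b (mem_coe.1 hb)]
    · intro a ha b hb hab
      rw [hI a ha, hI b hb] at hab
      exact absurd hab (T.loopless.irrefl x)
    · intro w hw
      have := hB hw
      rwa [SimpleGraph.mem_neighborFinset] at this
    · rintro w hw _ _ rfl
      have := hB hw
      rw [SimpleGraph.mem_neighborFinset] at this
      exact G.loopless.irrefl _ this
    · rw [hBc, hstar]
    · have h1 : Pool.Agent.Helper4.NS.inn T x L = ∅ := card_eq_zero.1 (by omega)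
      rw [h1, sum_empty, add_zero]
      exact hBs
  · exact Pool.Agent.Helper4.NS.near_star T hT (Fintype.card_fin _) x L hL (by omega) (by omega) G
      (fun v => by have := hG v; omega) c
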